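import Pool.Agent.MP_000f96_co.Slow

/-!
A graph `H` (on 17 vertices) whose maximum running time over percolating starting graphs is linear,
while the maximum running time over all starting graphs is at least of order `n ^ (3/2)`.
-/

namespace Pool.Agent.Results.MP_000f96_co.NotTheta

open Filter Asymptotics Pool.Agent.MP_000f96_co

/-- Lower bound for `M_H(n)` in closed form. -/
lemma lower (n : ℕ) (hn : 248 ≤ n) :
    (1 / 1000 : ℝ) * (n : ℝ) ^ (3 / 2 : ℝ) ≤ maxTime HH n := by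
  set l := Nat.sqrt (n / 62) with hl
  have h1 : l * l ≤ n / 62 := Nat.sqrt_le _
  have h2 : n / 62 < (l + 1) * (l + 1) := Nat.lt_succ_sqrt (n / 62)
  have h3 : 62 * (l * l) ≤ n := by
    have := Nat.mul_div_le n 62
    calc 62 * (l * l) ≤ 62 * (n / 62) := by omega
      _ ≤ n := this
  have h4 : n < 62 * ((l + 1) * (l + 1)) := by
    have := Nat.lt_mul_div_succ n (show 0 < 62 by norm_num)
    have h5 : n / 62 + 1 ≤ (l + 1) * (l + 1) := h2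
    calc n < 62 * (n / 62 + 1) := this
      _ ≤ 62 * ((l + 1) * (l + 1)) := Nat.mul_le_mul_left _ h5
  have hl2 : 2 ≤ l := by
    rw [hl, Nat.le_sqrt]
    omega
  have hT : TT l ≤ maxTime HH n := by
    apply maxTime_HH_ge l (by omega) n
    nlinarith
  have hTT : 5 * l ^ 3 ≤ TT l := by
    unfold TT
    clear_value l
    obtain ⟨m, rfl⟩ := Nat.exists_eq_add_of_le hl2
    have : 2 + m - 1 = 1 + m := by omega
    rw [this]
    nlinarith [Nat.zero_le (m ^ 3), Nat.zero_le (m ^ 2), Nat.zero_le m]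
  have hn2 : (n : ℝ) ≤ (16 * (l : ℝ)) ^ 2 := by
    have h6 : n ≤ 62 * ((2 * l) * (2 * l)) := by
      have h7 : (l + 1) * (l + 1) ≤ (2 * l) * (2 * l) :=
        Nat.mul_le_mul (by omega) (by omega)
      calc n ≤ 62 * ((l + 1) * (l + 1)) := h4.le
        _ ≤ _ := Nat.mul_le_mul_left _ h7
    have h8 : (n : ℝ) ≤ 62 * ((2 * (l : ℝ)) * (2 * (l : ℝ))) := by exact_mod_cast h6
    nlinarith [sq_nonneg (l : ℝ)]
  have hpow : (n : ℝ) ^ (3 / 2 : ℝ) ≤ (16 * (l : ℝ)) ^ 3 := by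
    calc (n : ℝ) ^ (3 / 2 : ℝ) ≤ ((16 * (l : ℝ)) ^ 2) ^ (3 / 2 : ℝ) :=
          Real.rpow_le_rpow (Nat.cast_nonneg n) hn2 (by norm_num)
      _ = (16 * (l : ℝ)) ^ 3 := by
          rw [← Real.rpow_natCast (16 * (l : ℝ)) 2, ← Real.rpow_mul (by positivity),
            ← Real.rpow_natCast (16 * (l : ℝ)) 3]
          norm_num
  have hfin : ((5 * l ^ 3 : ℕ) : ℝ) ≤ maxTime HH n := by exact_mod_cast hTT.trans hT
  push_cast at hfin
  have hl3 : (0 : ℝ) ≤ (l : ℝ) ^ 3 := by positivity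
  have : (16 * (l : ℝ)) ^ 3 = 4096 * (l : ℝ) ^ 3 := by ring
  rw [this] at hpow
  linarith

/-- There is a finite graph `H` with `M'_H(n) ≤ 2 n + 4` for all `n` and
`M_H(n) ≥ n ^ (3/2) / 1000` for all `n ≥ 248`; in particular `M_H ≠ Θ(M'_H)`. -/
theorem result :
    ∃ (W : Type) (_ : Fintype W) (H : SimpleGraph W),
      (∀ n : ℕ, maxPercTime H n ≤ 2 * n + 4) ∧
      (∀ n : ℕ, 248 ≤ n → (1 / 1000 : ℝ) * (n : ℝ) ^ (3 / 2 : ℝ) ≤ maxTime H n) ∧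
      ¬ ((fun n : ℕ => (maxTime H n : ℝ)) =Θ[atTop] fun n : ℕ => (maxPercTime H n : ℝ)) := by
  refine ⟨Vtx, inferInstance, HH, maxPercTime_HH_le, lower, ?_⟩
  intro h
  obtain ⟨C, hC⟩ := h.1.bound
  rw [eventually_atTop] at hC
  obtain ⟨N, hN⟩ := hC
  -- choose a large square `n = k ^ 2`
  set K : ℕ := max N (max 248 (⌈|C| * 6000⌉₊ + 1)) with hK
  have hK1 : N ≤ K := le_max_left _ _
  have hK2 : 248 ≤ K := (le_max_left _ _).trans (le_max_right _ _)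
  have hK3 : ⌈|C| * 6000⌉₊ + 1 ≤ K := (le_max_right _ _).trans (le_max_right _ _)
  have hKC : |C| * 6000 < (K : ℝ) := by
    have h1 : |C| * 6000 ≤ (⌈|C| * 6000⌉₊ : ℝ) := Nat.le_ceil _
    have h2 : ((⌈|C| * 6000⌉₊ + 1 : ℕ) : ℝ) ≤ (K : ℝ) := by exact_mod_cast hK3
    push_cast at h2
    linarith
  have hKpos : (0 : ℝ) < (K : ℝ) := by
    have : (248 : ℝ) ≤ (K : ℝ) := by exact_mod_cast hK2
    linarith
  have hKK : K ≤ K ^ 2 := by nlinarith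
  have h1 := hN (K ^ 2) (hK1.trans hKK)
  have h2 := lower (K ^ 2) (hK2.trans hKK)
  have h3 : (maxPercTime HH (K ^ 2) : ℝ) ≤ 2 * ((K : ℝ) ^ 2) + 4 := by
    exact_mod_cast maxPercTime_HH_le (K ^ 2)
  rw [Real.norm_of_nonneg (Nat.cast_nonneg _), Real.norm_of_nonneg (Nat.cast_nonneg _)] at h1
  have h4 : ((K ^ 2 : ℕ) : ℝ) ^ (3 / 2 : ℝ) = (K : ℝ) ^ 3 := by
    push_cast
    rw [← Real.rpow_natCast (K : ℝ) 2, ← Real.rpow_mul hKpos.le, ← Real.rpow_natCast (K : ℝ) 3]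
    norm_num
  rw [h4] at h2
  have h5 : C * (maxPercTime HH (K ^ 2) : ℝ) ≤ |C| * (2 * ((K : ℝ) ^ 2) + 4) := by
    calc C * (maxPercTime HH (K ^ 2) : ℝ) ≤ |C| * (maxPercTime HH (K ^ 2) : ℝ) :=
          mul_le_mul_of_nonneg_right (le_abs_self C) (Nat.cast_nonneg _)
      _ ≤ _ := mul_le_mul_of_nonneg_left h3 (abs_nonneg C)
  have h6 : (2 * ((K : ℝ) ^ 2) + 4) ≤ 6 * (K : ℝ) ^ 2 := by
    have : (1 : ℝ) ≤ (K : ℝ) ^ 2 := by
      have : (248 : ℝ) ≤ (K : ℝ) := by exact_mod_cast hK2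
      nlinarith
    linarith
  have h7 : |C| * (2 * ((K : ℝ) ^ 2) + 4) ≤ |C| * (6 * (K : ℝ) ^ 2) :=
    mul_le_mul_of_nonneg_left h6 (abs_nonneg C)
  have h8 : (1 / 1000 : ℝ) * (K : ℝ) ^ 3 ≤ |C| * (6 * (K : ℝ) ^ 2) := by linarith
  have h9 : |C| * 6000 * (K : ℝ) ^ 2 < (K : ℝ) * (K : ℝ) ^ 2 :=
    mul_lt_mul_of_pos_right hKC (by positivity)
  nlinarith

end Pool.Agent.Results.MP_000f96_co.NotTheta
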